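import Mathlib

set_option autoImplicit false

namespace Pool.Agent.Results.MP_dff590_al.Counterexample

open FreeGroup Filter

/-- The ball of radius `n` in the word metric of `X`. -/
def ball {G : Type} [Group G] (X : Set G) (n : ℕ) : Set G :=
  {g | ∃ l : List G, l.length ≤ n ∧ (∀ x ∈ l, x ∈ X ∨ x⁻¹ ∈ X) ∧ l.prod = g}

/-- The `φ`-conjugacy class of `y`. -/
def twClass {G : Type} [Group G] (φ : G →* G) (y : G) : Set G := {x | ∃ z, x = z * y * (φ z)⁻¹}

/-- The twisted conjugacy ratio. -/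
noncomputable def tcr {G : Type} [Group G] (X : Set G) (φ : G →* G) : ℝ :=
  limsup (fun n : ℕ => ((twClass φ '' ball X n).ncard : ℝ) / (ball X n).ncard) atTop

/-- The right-angled Artin group of a graph. -/
abbrev RAAG {V : Type} (Γ : SimpleGraph V) :=
  PresentedGroup {r | ∃ u v, Γ.Adj u v ∧ r = of u * of v * (of u)⁻¹ * (of v)⁻¹}

abbrev F := FreeGroup (Fin 2)

abbrev X : Set F := Set.range of

def φ : F →* F := lift fun i => of i ^ 4

def rep : List (Fin 2 × Bool) → List (Fin 2 × Bool)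
  | [] => []
  | s :: M => s :: s :: s :: s :: rep M

lemma rep_length : ∀ M, (rep M).length = 4 * M.length
  | [] => rfl
  | _ :: M => by simp only [rep, List.length_cons, rep_length M]; ring

lemma rep_red : ∀ M, IsReduced M → IsReduced (rep M)
  | [], h => h
  | [_], _ => by simp [rep]
  | s :: t :: M, h => by
    have := rep_red (t :: M) (List.IsChain.tail h)
    simp only [rep, isReduced_cons_cons] at this h ⊢
    tauto

lemma φ_mk : ∀ M, φ (mk M) = mk (rep M)
  | [] => φ.map_one
  | (i, s) :: M => by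
    change φ (mk ([(i, s)] ++ M)) = mk ([(i, s), (i, s), (i, s), (i, s)] ++ rep M)
    rw [← mul_mk, ← mul_mk, φ.map_mul, φ_mk M]
    congr 1
    cases s
    · change φ (of i)⁻¹ = (of i)⁻¹ * (of i)⁻¹ * (of i)⁻¹ * (of i)⁻¹
      simp [φ, pow_succ, mul_assoc]
    change φ (of i) = of i * of i * of i * of i
    simp [φ, pow_succ]

lemma norm_red {L : List (Fin 2 × Bool)} (h : IsReduced L) : norm (mk L) = L.length := by
  rw [FreeGroup.norm, toWord_mk, h.reduce_eq]

/-- The reduced word ends with two letters on different generators. -/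
def Good (x : F) : Prop := ∃ L p q, IsReduced (L ++ [p, q]) ∧ p.1 ≠ q.1 ∧ x = mk (L ++ [p, q])

lemma Good.le {x : F} (h : Good x) (z : F) : norm x + 4 * norm z ≤ norm (x * φ z) + 2 := by
  obtain ⟨L, p, q, h1, h2, rfl⟩ := h
  have h3 := isReduced_toWord (x := z)
  rw [← mk_toWord (x := z)]
  generalize z.toWord = M at h3
  rw [norm_red h1, norm_red h3, φ_mk, mul_mk, ← rep_length]
  have h4 := rep_red M h3
  rcases M with _ | ⟨s, M⟩
  · simp [rep, norm_red h1]
  by_cases e : q.1 = s.1 → q.2 = s.2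
  · rw [norm_red (List.IsChain.append h1 h4 (by simpa [rep] using e))]
    simp only [List.length_append]
    omega
  obtain ⟨i, b⟩ := q
  obtain ⟨j, c⟩ := s
  obtain ⟨rfl, rfl⟩ : i = j ∧ c = !b := by cases b <;> cases c <;> simp_all
  have h5 : mk (L ++ [p, (i, b)] ++ rep ((i, !b) :: M)) = mk (L ++ [p] ++ (rep ((i, !b) :: M)).tail) := by
    refine Quot.sound ?_
    convert Red.Step.not (L₁ := L ++ [p]) (x := i) (b := b) using 1
    simp [rep]
  have h6 : IsReduced (L ++ [p]) := List.IsChain.left_of_append (l₂ := [(i, b)]) (by rw [List.append_assoc]; exact h1)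
  rw [h5, norm_red (List.IsChain.append h6 (List.IsChain.tail h4)
    (by simpa [rep] using fun h => absurd h h2))]
  simp [rep]
  omega

lemma Good.eq {x y : F} (hx : Good x) (hy : Good y) (h : twClass φ x = twClass φ y) : x = y := by
  obtain ⟨z, hz⟩ : x ∈ twClass φ y := h ▸ ⟨1, by simp⟩
  have h1 := hx.le z
  have h2 := hy.le z⁻¹
  rw [show x * φ z = z * y by simp [hz]] at h1
  rw [show y * φ z⁻¹ = z⁻¹ * x by simp [hz, mul_assoc], norm_inv_eq] at h2
  have h3 := norm_mul_le z y
  have h4 := norm_mul_le z⁻¹ x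
  rw [norm_inv_eq] at h4
  have h5 : z = 1 := norm_eq_zero.mp (by omega)
  simpa [h5] using hz

def ext (w : F) : F :=
  if w.toWord.getLast? = some (0, false) then w * of 1 * of 0 else w * of 0 * of 1

lemma ext_spec (w : F) : ∃ p q, IsReduced (w.toWord ++ [p, q]) ∧ p.1 ≠ q.1 ∧
    ext w = mk (w.toWord ++ [p, q]) := by
  have e (i j : Fin 2) : w * of i * of j = mk (w.toWord ++ [(i, true), (j, true)]) := by
    rw [← mul_mk, mk_toWord, mul_assoc]; rfl
  rw [ext]
  split_ifs with h
  · exact ⟨_, _, List.IsChain.append isReduced_toWord (by simp) (by simp [h]), by simp, e ..⟩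
  refine ⟨_, _, List.IsChain.append isReduced_toWord (by simp) ?_, by simp, e ..⟩
  rintro ⟨i, b⟩ hx y hy
  obtain rfl : (0, true) = y := by simpa using hy
  rintro rfl
  cases b
  exacts [absurd hx h, rfl]

lemma ext_inj : Function.Injective fun w => twClass φ (ext w) := fun v w h => by
  obtain ⟨p, q, h1, h2, h3⟩ := ext_spec v
  obtain ⟨p', q', h4, h5, h6⟩ := ext_spec w
  have h7 := congrArg toWord (Good.eq ⟨_, _, _, h1, h2, h3⟩ ⟨_, _, _, h4, h5, h6⟩ h)
  rw [h3, h6, toWord_mk, toWord_mk, h1.reduce_eq, h4.reduce_eq] at h7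
  exact toWord_injective (List.append_inj' h7 rfl).1

lemma ball_mul {n : ℕ} {w : F} (h : w ∈ ball X n) (i : Fin 2) : w * of i ∈ ball X (n + 1) := by
  obtain ⟨l, h1, h2, rfl⟩ := h
  refine ⟨l ++ [of i], by simpa, fun x hx => ?_, by simp⟩
  rcases List.mem_append.mp hx with h | h
  · exact h2 x h
  exact .inl ⟨i, (List.mem_singleton.mp h).symm⟩

def T : Finset F := {1, of 0, of 1, (of 0)⁻¹, (of 1)⁻¹}

lemma ball_succ (n : ℕ) : ball X (n + 1) ⊆ Set.image2 (· * ·) T (ball X n) := by
  rintro _ ⟨_ | ⟨x, l⟩, h1, h2, rfl⟩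
  · exact ⟨1, by simp [T], 1, ⟨[], by simp⟩, by simp⟩
  refine ⟨x, ?_, l.prod, ⟨l, by simpa using h1, fun y hy => h2 y (List.mem_cons_of_mem _ hy), rfl⟩,
    by simp⟩
  rcases h2 x List.mem_cons_self with ⟨i, rfl⟩ | ⟨i, h⟩
  · fin_cases i <;> simp [T]
  rw [← inv_inv x, ← h]
  fin_cases i <;> simp [T]

lemma ball_fin : ∀ n, (ball X n).Finite
  | 0 => (Set.finite_singleton 1).subset fun _ ⟨l, h, _, e⟩ => by
    rw [← e, List.length_eq_zero_iff.mp (Nat.le_zero.mp h)]; rfl
  | n + 1 => (T.finite_toSet.image2 _ (ball_fin n)).subset (ball_succ n)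

lemma ball_card (n : ℕ) : (ball X (n + 1)).ncard ≤ 5 * (ball X n).ncard := by
  refine (Set.ncard_le_ncard (ball_succ n) (T.finite_toSet.image2 _ (ball_fin n))).trans ?_
  rw [← Set.image_prod]
  refine (Set.ncard_image_le (T.finite_toSet.prod (ball_fin n))).trans ?_
  rw [Set.ncard_prod, Set.ncard_coe_finset]
  exact Nat.mul_le_mul_right _ Finset.card_le_five

lemma pos : 1 / 25 ≤ tcr X φ := by
  refine le_limsup_of_frequently_le (Eventually.frequently ?_) ⟨1, ?_⟩
  · filter_upwards [eventually_ge_atTop 2] with n hn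
    obtain ⟨n, rfl⟩ := Nat.exists_eq_add_of_le' hn
    have h1 : (ball X n).ncard ≤ (twClass φ '' ball X (n + 2)).ncard := by
      refine Set.ncard_le_ncard_of_injOn _ (fun w hw => ⟨ext w, ?_, rfl⟩) ext_inj.injOn
        ((ball_fin _).image _)
      rw [ext]
      split_ifs <;> exact ball_mul (ball_mul hw _) _
    have h2 := ball_card n
    have h3 : (ball X (n + 2)).ncard ≤ _ := ball_card (n + 1)
    have h4 : 0 < (ball X (n + 2)).ncard := (Set.ncard_pos (ball_fin _)).mpr ⟨1, [], by simp⟩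
    rw [div_le_div_iff₀ (by norm_num) (by exact_mod_cast h4)]
    have h5 : 1 * (ball X (n + 2)).ncard ≤ (twClass φ '' ball X (n + 2)).ncard * 25 := by omega
    exact_mod_cast h5
  refine eventually_map.mpr (.of_forall fun n => div_le_one_of_le₀ ?_ (by positivity))
  exact_mod_cast Set.ncard_image_le (ball_fin n)

/-- The free group of rank two is a non-abelian right-angled Artin group, and for its basis the
endomorphism `a ↦ a⁴`, `b ↦ b⁴` has positive twisted conjugacy ratio. -/
theorem result : Nonempty (FreeGroup (Fin 2) ≃* RAAG (⊥ : SimpleGraph (Fin 2))) ∧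
    (∃ a b : FreeGroup (Fin 2), a * b ≠ b * a) ∧
    Subgroup.closure (Set.range (of : Fin 2 → FreeGroup (Fin 2))) = ⊤ ∧
    ∃ ψ : FreeGroup (Fin 2) →* FreeGroup (Fin 2), 1 / 25 ≤ tcr (Set.range of) ψ := by
  refine ⟨⟨(QuotientGroup.quotientBot.symm).trans (QuotientGroup.quotientMulEquivOfEq ?_)⟩,
    ⟨of 0, of 1, by decide⟩, closure_range_of _, φ, pos⟩
  simp [Subgroup.normalClosure_empty]

end Pool.Agent.Results.MP_dff590_al.Counterexample
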